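import Pool.Agent.H48.CR.Final

/-! A Church-Rosser language that is generated by no programmed grammar without erasing rules and
with appearance checking. -/

namespace Pool.Agent.Results.MP_d63846_lc.NotInPac

open PoolH48.CR

/-- There is a Church-Rosser language `L` such that `L` minus the empty word is generated by no
programmed grammar without erasing rules and with appearance checking. -/
theorem result : ∃ (T : Type) (_ : Finite T) (L : Set (List T)), IsChurchRosser L ∧
    ∀ G : ProgGrammar T, G.NonErasing → G.language ≠ L \ {[]} :=
  ⟨Tm, inferInstance, LL, LL_church_rosser, main⟩

end Pool.Agent.Results.MP_d63846_lc.NotInPac
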